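import Pool.Agent.TH563.UV.Defs
import Pool.Agent.W215.AX.Rtx
import Pool.Agent.W334.AR.Evt
import Pool.Agent.W637.AR.Rote
import Pool.Agent.W490.AR.Lmd
import Pool.Agent.W571.AR.Lmt
import Pool.Agent.W12.AR.Gam
import Pool.Agent.W885.AR.Lmr
import Pool.Agent.W199.AR.Lmv
import Pool.Agent.W946.AR.Lmm
import Pool.Agent.W397.AR.Cnt
import Pool.Agent.W466.BS.Belt

/-!
# UV-RTB: from the R-matrix to the iterated integral, trees with crossing circles
-/

set_option autoImplicit false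

namespace Pool.Agent.TH639.J28

open Finset Filter Topology Matrix
open Pool.Agent.H550R3.Jones
open Pool.Agent.W711.HT hiding XX
open Pool.Agent.W719.AR (Lm rt ex kp ps S_ROTE S_LMT S_LMR S_LMV S_LMM dd)
open Pool.Agent.W719.BS (rot kw belt)
open Pool.Agent.TH563.UV
open scoped Real

/-! ### The eigenvalue of a circle -/

/-- `∑_{j<N} v^((2c+1)(N-1-2j))` -/
noncomputable def sx (N : ℕ) (v : ℂ) (c : ℕ) : ℂ :=
  ∑ j ∈ range N, v ^ ((2 * (c : ℤ) + 1) * ((N : ℤ) - 1 - 2 * (j : ℤ)))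

/-- the eigenvalue of a circle on the summand of dimension `2 c + 1` -/
noncomputable def bx (N : ℕ) (v : ℂ) (c : ℕ) : ℂ :=
  v ^ (-(2 * ((N : ℤ) ^ 2 - 1))) * sx N v c

theorem belt_eig (u : ℂ) (hu : Gen u) (N : ℕ) {φ ψ} (hd : IsDec u N φ ψ) (d : Fin N) :
    belt N (u ^ 2) * φ d = bx N (u ^ 2) (N - 1 - d) • φ d := by
  have hv0 : u ^ 2 ≠ 0 := pow_ne_zero 2 hu.1
  have hcc : (cc N d : ℤ) = 2 * ((N - 1 - (d : ℕ) : ℕ) : ℤ) + 1 := by
    unfold cc; have := d.2; omega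
  have hcc' : 0 < cc N d := by unfold cc; have := d.2; omega
  have hb0 : br (u ^ 2) (cc N d) ≠ 0 := hu.2 _ hcc'
  have hz0 : (u ^ 2) ^ (2 * ((N : ℤ) ^ 2 - 1)) ≠ 0 := zpow_ne_zero _ hv0
  have h := Pool.Agent.W466.BS.belt u hu N φ ψ hd d
  have hq := Pool.Agent.W466.BS.qsum (u ^ 2) hv0 N (cc N d)
  have hs : ∑ x : Fin N, (u ^ 2) ^ (((cc N d : ℕ) : ℤ) * ((N : ℤ) - 1 - 2 * (x : ℕ))) =
      sx N (u ^ 2) (N - 1 - d) := by
    unfold sx
    rw [← Fin.sum_univ_eq_sum_range (fun j => (u ^ 2) ^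
      ((2 * ((N - 1 - (d : ℕ) : ℕ) : ℤ) + 1) * ((N : ℤ) - 1 - 2 * (j : ℤ)))) N]
    refine sum_congr rfl fun x _ => ?_
    rw [hcc]
  rw [hs] at hq
  rw [← hq] at h
  have h2 : (br (u ^ 2) (cc N d) * (u ^ 2) ^ (2 * ((N : ℤ) ^ 2 - 1))) •
      (bx N (u ^ 2) (N - 1 - d) • φ d) =
      (br (u ^ 2) (cc N d) * sx N (u ^ 2) (N - 1 - d)) • φ d := by
    rw [smul_smul]
    congr 1
    unfold bx
    rw [_root_.zpow_neg]
    field_simp
  have hne : br (u ^ 2) (cc N d) * (u ^ 2) ^ (2 * ((N : ℤ) ^ 2 - 1)) ≠ 0 := mul_ne_zero hb0 hz0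
  exact smul_right_injective _ hne (h.trans h2.symm)

theorem hasDeriv_sx (N c : ℕ) {v : ℂ} (hv : v ≠ 0) :
    HasDerivAt (fun v => sx N v c)
      ((2 * (c : ℂ) + 1) * (∑ j ∈ range N, ((N : ℂ) - 1 - 2 * j) *
        v ^ ((2 * (c : ℤ) + 1) * ((N : ℤ) - 1 - 2 * (j : ℤ)))) / v) v := by
  unfold sx
  have h : ∀ j ∈ range N, HasDerivAt
      (fun v : ℂ => v ^ ((2 * (c : ℤ) + 1) * ((N : ℤ) - 1 - 2 * (j : ℤ))))
      ((2 * (c : ℂ) + 1) * (((N : ℂ) - 1 - 2 * j) *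
        v ^ ((2 * (c : ℤ) + 1) * ((N : ℤ) - 1 - 2 * (j : ℤ)))) / v) v := by
    intro j _
    have h1 := hasDerivAt_zpow ((2 * (c : ℤ) + 1) * ((N : ℤ) - 1 - 2 * (j : ℤ))) v (Or.inl hv)
    refine h1.congr_deriv ?_
    rw [zpow_sub_one₀ hv]
    push_cast
    field_simp
  have h2 := HasDerivAt.fun_sum h
  refine h2.congr_deriv ?_
  rw [mul_sum, sum_div]

theorem hasDeriv_bx (N c : ℕ) {v : ℂ} (hv : v ≠ 0) :
    HasDerivAt (fun v => bx N v c)
      (((-(2 * ((N : ℤ) ^ 2 - 1)) : ℤ) : ℂ) * v ^ (-(2 * ((N : ℤ) ^ 2 - 1))) / v * sx N v c +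
        v ^ (-(2 * ((N : ℤ) ^ 2 - 1))) *
        ((2 * (c : ℂ) + 1) * (∑ j ∈ range N, ((N : ℂ) - 1 - 2 * j) *
        v ^ ((2 * (c : ℤ) + 1) * ((N : ℤ) - 1 - 2 * (j : ℤ)))) / v)) v := by
  unfold bx
  have h1 := hasDerivAt_zpow (-(2 * ((N : ℤ) ^ 2 - 1))) v (Or.inl hv)
  refine (h1.mul (hasDeriv_sx N c hv)).congr_deriv ?_
  rw [zpow_sub_one₀ hv]
  field_simp

theorem vN_pref (N : ℕ) (hN : 2 ≤ N) : vN N ^ (-(2 * ((N : ℤ) ^ 2 - 1))) = kb N := by
  have hN0 : (N : ℂ) ≠ 0 := by exact_mod_cast (by omega : N ≠ 0)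
  rw [Pool.Agent.W199.AR.vN_zpow]
  unfold kb
  rw [Complex.exp_eq_exp_iff_exists_int]
  refine ⟨-(N : ℤ), ?_⟩
  push_cast
  field_simp
  ring

theorem term_val (N c j : ℕ) (hN : 2 ≤ N) :
    vN N ^ ((2 * (c : ℤ) + 1) * ((N : ℤ) - 1 - 2 * (j : ℤ))) =
      Complex.exp (((N : ℂ) - 1 - 2 * j) * ((ps N c : ℂ) + π) * Complex.I) := by
  have hN0 : (N : ℂ) ≠ 0 := by exact_mod_cast (by omega : N ≠ 0)
  rw [Pool.Agent.W199.AR.vN_zpow]
  congr 1
  unfold ps
  push_cast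
  field_simp
  ring

/-- reflection of the summation index -/
theorem refl_sum (N : ℕ) (f : ℂ → ℂ) :
    ∑ j ∈ range N, f (-((N : ℂ) - 1 - 2 * j)) = ∑ j ∈ range N, f ((N : ℂ) - 1 - 2 * j) := by
  rw [← Finset.sum_range_reflect]
  refine sum_congr rfl fun j hj => ?_
  rw [mem_range] at hj
  congr 1
  rw [Nat.sub_sub, Nat.cast_sub (by omega)]
  push_cast
  ring

theorem sx_val (N c : ℕ) (hN : 2 ≤ N) : sx N (vN N) c = UN N (ps N c) := by
  unfold sx UN
  rw [sum_congr rfl fun j _ => term_val N c j hN]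
  have h := refl_sum N (fun m => Complex.exp (m * ((ps N c : ℂ) + π) * Complex.I))
  have h2 : ∑ j ∈ range N, Complex.exp (((N : ℂ) - 1 - 2 * j) * ((ps N c : ℂ) + π) * Complex.I) =
      (∑ j ∈ range N, Complex.exp (((N : ℂ) - 1 - 2 * j) * ((ps N c : ℂ) + π) * Complex.I) +
      ∑ j ∈ range N, Complex.exp (-((N : ℂ) - 1 - 2 * j) * ((ps N c : ℂ) + π) * Complex.I)) / 2 := by
    rw [h]
    ring
  rw [h2, ← sum_add_distrib, sum_div]
  refine sum_congr rfl fun j _ => ?_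
  rw [Complex.cos, neg_mul]

/-- the derivative of `UN` -/
noncomputable def UD (N : ℕ) (ψ : ℂ) : ℂ :=
  ∑ j ∈ range N, -(((N : ℂ) - 1 - 2 * j) * Complex.sin (((N : ℂ) - 1 - 2 * j) * (ψ + π)))

theorem hasDeriv_UN (N : ℕ) (ψ : ℂ) : HasDerivAt (UN N) (UD N ψ) ψ := by
  unfold UN UD
  have h : ∀ j ∈ range N, HasDerivAt
      (fun ψ : ℂ => Complex.cos (((N : ℂ) - 1 - 2 * j) * (ψ + π)))
      (-(((N : ℂ) - 1 - 2 * j) * Complex.sin (((N : ℂ) - 1 - 2 * j) * (ψ + π)))) ψ := by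
    intro j _
    have h1 : HasDerivAt (fun ψ : ℂ => ((N : ℂ) - 1 - 2 * j) * (ψ + π))
        ((N : ℂ) - 1 - 2 * j) ψ := by
      have := ((hasDerivAt_id ψ).add_const (π : ℂ)).const_mul ((N : ℂ) - 1 - 2 * j)
      simpa using this
    refine h1.ccos.congr_deriv ?_
    ring
  exact HasDerivAt.fun_sum h

theorem UN_even (N : ℕ) (ψ : ℂ) : UN N (-ψ) = UN N ψ := by
  unfold UN
  refine sum_congr rfl fun j _ => ?_
  have h1 : ((N : ℂ) - 1 - 2 * j) * (-ψ + π) =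
      -(((N : ℂ) - 1 - 2 * j) * (ψ + π)) + (((N : ℤ) - 1 - 2 * (j : ℤ) : ℤ) : ℂ) * (2 * π) := by
    push_cast
    ring
  rw [h1, Complex.cos_add_int_mul_two_pi, Complex.cos_neg]

theorem UD_odd (N : ℕ) (ψ : ℂ) : UD N (-ψ) = -UD N ψ := by
  unfold UD
  rw [← sum_neg_distrib]
  refine sum_congr rfl fun j _ => ?_
  have h1 : ((N : ℂ) - 1 - 2 * j) * (-ψ + π) =
      -(((N : ℂ) - 1 - 2 * j) * (ψ + π)) + (((N : ℤ) - 1 - 2 * (j : ℤ) : ℤ) : ℂ) * (2 * π) := by
    push_cast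
    ring
  rw [h1, Complex.sin_add_int_mul_two_pi, Complex.sin_neg]
  ring

theorem dsx_val (N c : ℕ) (hN : 2 ≤ N) :
    ∑ j ∈ range N, ((N : ℂ) - 1 - 2 * j) *
        vN N ^ ((2 * (c : ℤ) + 1) * ((N : ℤ) - 1 - 2 * (j : ℤ))) =
      -(Complex.I * UD N (ps N c)) := by
  unfold UD
  rw [sum_congr rfl fun j _ => by rw [term_val N c j hN]]
  have h := refl_sum N (fun m => m * Complex.exp (m * ((ps N c : ℂ) + π) * Complex.I))
  have h2 : ∑ j ∈ range N, ((N : ℂ) - 1 - 2 * j) *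
        Complex.exp (((N : ℂ) - 1 - 2 * j) * ((ps N c : ℂ) + π) * Complex.I) =
      (∑ j ∈ range N, ((N : ℂ) - 1 - 2 * j) *
        Complex.exp (((N : ℂ) - 1 - 2 * j) * ((ps N c : ℂ) + π) * Complex.I) +
      ∑ j ∈ range N, -((N : ℂ) - 1 - 2 * j) *
        Complex.exp (-((N : ℂ) - 1 - 2 * j) * ((ps N c : ℂ) + π) * Complex.I)) / 2 := by
    rw [h]
    ring
  rw [h2, ← sum_add_distrib, sum_div, mul_sum, ← sum_neg_distrib]
  refine sum_congr rfl fun j _ => ?_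
  rw [Complex.sin, neg_mul (((N : ℂ) - 1 - 2 * j)) ((ps N c : ℂ) + π), neg_mul]
  generalize Complex.exp (((N : ℂ) - 1 - 2 * j) * ((ps N c : ℂ) + π) * Complex.I) = X
  generalize Complex.exp (-(((N : ℂ) - 1 - 2 * j) * ((ps N c : ℂ) + π)) * Complex.I) = Y
  linear_combination (((N : ℂ) - 1 - 2 * j) * (Y - X) / 2) * (-Complex.I_sq)

theorem lmb (N : ℕ) (hN : 2 ≤ N) : Lm N (bx N) (fun ψ => kb N * UN N ψ) := by
  have hN0 : (N : ℂ) ≠ 0 := by exact_mod_cast (by omega : N ≠ 0)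
  have hpi : (π : ℂ) ≠ 0 := by exact_mod_cast Real.pi_ne_zero
  have hv := Pool.Agent.W199.AR.vN_ne N
  refine ⟨fun ψ => ((hasDeriv_UN N ψ).const_mul _).differentiableAt, fun ψ => ?_, fun c hc => ?_,
    fun c hc hne => ?_⟩
  · rw [UN_even]
  · have h1 := (hasDeriv_bx N c hv).continuousAt.tendsto
    have h2 : bx N (vN N) c = kb N * UN N (ps N c) := by
      unfold bx
      rw [vN_pref N hN, sx_val N c hN]
    rw [h2] at h1
    exact h1.mono_left nhdsWithin_le_nhds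
  · have hc' : N - 1 - c < N := by omega
    have hcast : ((N - 1 - c : ℕ) : ℂ) = N - 1 - c := by
      rw [Nat.sub_sub, Nat.cast_sub (by omega)]; push_cast; ring
    have hpsr : ((ps N (N - 1 - c) : ℝ) : ℂ) = -((ps N c : ℝ) : ℂ) := by
      rw [Pool.Agent.W199.AR.ps_refl N c hc]; push_cast; ring
    have hX : sx N (vN N) (N - 1 - c) = sx N (vN N) c := by
      rw [sx_val N _ hN, sx_val N c hN, hpsr, UN_even]
    have hXb : bx N (vN N) (N - 1 - c) = bx N (vN N) c := by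
      unfold bx
      rw [hX]
    have hsin : Complex.sin (ps N c) ≠ 0 := by
      rw [← Complex.ofReal_sin]
      exact_mod_cast Pool.Agent.W199.AR.sin_ps_ne N c hc hne
    have hf := (hasDeriv_bx N c hv).sub (hasDeriv_bx N (N - 1 - c) hv)
    have hg := (Pool.Agent.W199.AR.hasDeriv_un c hv).sub
      (Pool.Agent.W199.AR.hasDeriv_un (N - 1 - c) hv)
    have hps' : Complex.sin (ps N (N - 1 - c)) = -Complex.sin (ps N c) := by
      rw [hpsr, Complex.sin_neg]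
    have hg' : (2 * (c : ℂ) + 1) * (vN N ^ (2 * (c : ℤ) + 1) - vN N ^ (-(2 * (c : ℤ) + 1))) / vN N -
        (2 * ((N - 1 - c : ℕ) : ℂ) + 1) * (vN N ^ (2 * ((N - 1 - c : ℕ) : ℤ) + 1) -
          vN N ^ (-(2 * ((N - 1 - c : ℕ) : ℤ) + 1))) / vN N =
        -(4 * Complex.I * N * Complex.sin (ps N c)) / vN N := by
      rw [Pool.Agent.W199.AR.vN_br N c hN, Pool.Agent.W199.AR.vN_br N (N - 1 - c) hN, hps', hcast]
      field_simp
      ring
    have hq := Pool.Agent.W199.AR.quot_tendsto hf hg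
      (by simp only [Pi.sub_apply, hXb, sub_self]) (by
      simp only [Pi.sub_apply]
      rw [Pool.Agent.W199.AR.un_val N c hN, Pool.Agent.W199.AR.un_val N _ hN, hpsr]
      rw [Complex.cos_neg, sub_self]) (by
      rw [hg']
      refine div_ne_zero (neg_ne_zero.2 (mul_ne_zero (mul_ne_zero (mul_ne_zero (by norm_num)
        Complex.I_ne_zero) hN0) hsin)) hv)
    have hder : deriv (fun ψ => kb N * UN N ψ) (ps N c) = kb N * UD N (ps N c) :=
      ((hasDeriv_UN N _).const_mul _).deriv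
    rw [hg', vN_pref N hN, hX, dsx_val N c hN, dsx_val N (N - 1 - c) hN, hpsr, UD_odd, hcast] at hq
    rw [hder]
    have e : (((-(2 * ((N : ℤ) ^ 2 - 1)) : ℤ) : ℂ) * kb N / vN N * sx N (vN N) c +
        kb N * ((2 * (c : ℂ) + 1) * -(Complex.I * UD N (ps N c)) / vN N) -
        (((-(2 * ((N : ℤ) ^ 2 - 1)) : ℤ) : ℂ) * kb N / vN N * sx N (vN N) c +
        kb N * ((2 * ((N : ℂ) - 1 - c) + 1) * -(Complex.I * -UD N (ps N c)) / vN N))) /
        (-(4 * Complex.I * N * Complex.sin (ps N c)) / vN N) =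
        kb N * UD N (ps N c) / (2 * Complex.sin (ps N c)) := by
      field_simp
      ring
    rw [e] at hq
    exact hq

/-! ### The eigenvalues of the operator of a tree -/

/-- eigenvalue of the operator of a vertex -/
noncomputable def evv (N : ℕ) (v : ℂ) (b : Bool) (a : ℤ) (c : ℕ) : ℂ :=
  (if b then bx N v c else 1) * ex N a v c

/-- the eigenvalues of the operator of a tree -/
noncomputable def evb (N : ℕ) (v : ℂ) : Tb → ℕ → ℂ
  | .vx b a => evv N v b a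
  | .br t s => fun c => evb N v t c * rt N v (evb N v s) c

/-- the operator of a tree is scalar on the summands -/
theorem op_eig (hR : S_ROTE) (u : ℂ) (hu : Gen u) (N : ℕ) {φ ψ} (hd : IsDec u N φ ψ) (t : Tb) :
    ∀ d : Fin N, op N (u ^ 2) t * φ d = evb N (u ^ 2) t (N - 1 - d) • φ d := by
  induction t with
  | vx b a =>
    intro d
    have h1 := Pool.Agent.W334.AR.op_eig hR u hu N hd (Pool.Agent.W719.AR.Tr.vx a) d
    have h1' : (if 0 ≤ a then crossP N (u ^ 2) ^ a.toNat else crossN N (u ^ 2) ^ (-a).toNat) * φ d =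
      ex N a (u ^ 2) (N - 1 - d) • φ d := h1
    change opv N (u ^ 2) b a * φ d = evv N (u ^ 2) b a (N - 1 - d) • φ d
    unfold opv evv
    rw [Matrix.mul_assoc, h1', Matrix.mul_smul]
    cases b with
    | true =>
      simp only [if_true]
      rw [belt_eig u hu N hd d, smul_smul, mul_comm]
    | false =>
      simp only [Bool.false_eq_true, if_false]
      rw [Matrix.one_mul, one_mul]
  | br t s iht ihs =>
    intro d
    have h1 := hR u hu N φ ψ hd (op N (u ^ 2) s) (evb N (u ^ 2) s) ihs d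
    change (op N (u ^ 2) t * rot N (u ^ 2) (op N (u ^ 2) s)) * φ d = _
    rw [Matrix.mul_assoc, h1, Matrix.mul_smul, iht d, smul_smul]
    congr 1
    change _ = evb N (u ^ 2) t _ * rt N (u ^ 2) (evb N (u ^ 2) s) _
    ring

theorem evt (hR : S_ROTE) (u : ℂ) (hu : Gen u) (N : ℕ) (h : 0 < N) (t : Tb) :
    br (u ^ 2) N * jt t N (u ^ 2) =
      ∑ c ∈ range N, evb N (u ^ 2) t c * br (u ^ 2) (2 * (c : ℤ) + 1) := by
  obtain ⟨φ, ψ, hd⟩ := Pool.Agent.H897R.J.taskDec Pool.Agent.H345J.taskMod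
    Pool.Agent.H345J.taskInt u hu N
  have ht := Pool.Agent.W358.BSTr.tr u hu N h φ ψ hd (op N (u ^ 2) t)
    (fun d => evb N (u ^ 2) t (N - 1 - d)) (fun d => op_eig hR u hu N hd t d)
  have hJ : jt t N (u ^ 2) = ptr (kw N (u ^ 2)) (op N (u ^ 2) t) ⟨0, h⟩ ⟨0, h⟩ := by
    unfold jt; rw [dif_pos h]
  have hcc : ∀ d : Fin N, ((cc N d : ℕ) : ℤ) = 2 * ((N - 1 - (d : ℕ) : ℕ) : ℤ) + 1 := by
    intro d; unfold cc; have := d.2; omega
  rw [hJ, ht]
  have hs : ∑ d : Fin N, evb N (u ^ 2) t (N - 1 - d) * br (u ^ 2) (cc N d) =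
      ∑ d : Fin N, evb N (u ^ 2) t (N - 1 - d) *
        br (u ^ 2) (2 * ((N - 1 - (d : ℕ) : ℕ) : ℤ) + 1) :=
    sum_congr rfl fun d _ => by rw [hcc d]
  rw [hs, Fin.sum_univ_eq_sum_range (fun d => evb N (u ^ 2) t (N - 1 - d) *
        br (u ^ 2) (2 * ((N - 1 - d : ℕ) : ℤ) + 1)) N,
    Finset.sum_range_reflect (fun c => evb N (u ^ 2) t c *
        br (u ^ 2) (2 * (c : ℤ) + 1)) N]

/-! ### Continuity -/

section Cont

open Pool.Agent.W749.BS (mul_cont rot_cont br_v0_ne belt_cont)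
open Pool.Agent.H756R3.J (zpow_cont crossP_cont crossN_cont)
open Pool.Agent.W397.AR (pow_cont)

theorem op_cont {N : ℕ} {v : ℂ} (hv : v ≠ 0) (hN : ∀ k : ℕ, 0 < k → k < N → br v k ≠ 0)
    (t : Tb) : ∀ p q : Fin N × Fin N, ContinuousAt (fun v => op N v t p q) v := by
  induction t with
  | vx b a =>
    have h1 : ∀ p q : Fin N × Fin N, ContinuousAt (fun v : ℂ => (if 0 ≤ a then
        crossP N v ^ a.toNat else crossN N v ^ (-a).toNat) p q) v := by
      intro p q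
      by_cases ha : 0 ≤ a
      · simp only [if_pos ha]
        exact pow_cont (crossP_cont hv hN) _ p q
      · simp only [if_neg ha]
        exact pow_cont (crossN_cont hv hN) _ p q
    have h2 : ∀ p q : Fin N × Fin N, ContinuousAt (fun v : ℂ => (if b then belt N v else
        (1 : Matrix (Fin N × Fin N) (Fin N × Fin N) ℂ)) p q) v := by
      intro p q
      cases b with
      | true => simp only [if_true]; exact belt_cont hv hN p q
      | false => simp only [Bool.false_eq_true, if_false]; exact continuousAt_const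
    intro p q
    simp only [op, opv]
    exact mul_cont h2 h1 p q
  | br t c iht ihc =>
    intro p q
    simp only [op]
    exact mul_cont iht (rot_cont hv hN ihc) p q

theorem jt_cont {N : ℕ} {v : ℂ} (hv : v ≠ 0) (hN : ∀ k : ℕ, 0 < k → k < N → br v k ≠ 0)
    (t : Tb) : ContinuousAt (jt t N) v := by
  unfold jt
  by_cases h : 0 < N
  · simp only [h, dite_true]
    unfold ptr
    refine tendsto_finsetSum _ fun x _ => ?_
    refine ContinuousAt.mul ?_ ?_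
    · unfold Pool.Agent.W719.BS.kw
      exact zpow_cont hv _
    · exact op_cont hv hN t _ _
  · simp only [h, dite_false]
    exact continuousAt_const

theorem cnt (t : Tb) (N : ℕ) : ContinuousAt (jt t N) (vN N) := by
  have h0 : vN N = Pool.Agent.W719.BS.v0 N := rfl
  rw [h0]
  exact jt_cont (Pool.Agent.W749.BS.v0_ne N) (fun k h1 h2 => br_v0_ne h1 h2) t

end Cont

/-! ### The limit -/

/-- the constant -/
noncomputable def Kt (N : ℕ) (t : Tb) : ℂ :=
  kp N ^ t.ws * kb N ^ t.nb * ((-1) ^ (N - 1) * (Complex.I * N ^ 2 / (2 * π))) ^ t.ne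

theorem lm_one (N : ℕ) : Lm N (fun _ _ => 1) (fun _ => 1) := by
  refine ⟨differentiable_const _, fun _ => rfl, fun c _ => tendsto_const_nhds, fun c _ _ => ?_⟩
  simp only [sub_self, zero_div, deriv_const']
  exact tendsto_const_nhds

theorem lm_tree (hLMR : S_LMR) (hLMV : S_LMV) (hLMM : S_LMM) (N : ℕ) (hN : 2 ≤ N) (t : Tb) :
    Lm N (fun v c => evb N v t c) (fun ψ => Kt N t * (Eb t.bl t.wt N ψ * XX t N ψ)) := by
  induction t with
  | vx b a =>
    have h := hLMV N a hN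
    cases b with
    | true =>
      have h2 := hLMM N _ _ _ _ hN (lmb N hN) h
      have h1 : (fun ψ : ℂ => Kt N (Tb.vx true a) *
          (Eb (Tb.vx true a).bl (Tb.vx true a).wt N ψ * XX (Tb.vx true a) N ψ)) =
          fun ψ => kb N * UN N ψ * (kp N ^ a * Ea a N ψ) := by
        funext ψ
        change kp N ^ a * kb N ^ 1 * _ ^ 0 * (Ea a N ψ * UN N ψ * 1) = _
        rw [pow_zero, pow_one]
        ring
      rw [h1]
      exact h2
    | false =>
      have h2 := hLMM N _ _ _ _ hN (lm_one N) h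
      have h1 : (fun ψ : ℂ => Kt N (Tb.vx false a) *
          (Eb (Tb.vx false a).bl (Tb.vx false a).wt N ψ * XX (Tb.vx false a) N ψ)) =
          fun ψ => 1 * (kp N ^ a * Ea a N ψ) := by
        funext ψ
        change kp N ^ a * kb N ^ 0 * _ ^ 0 * (Ea a N ψ * 1 * 1) = _
        rw [pow_zero, pow_zero]
        ring
      rw [h1]
      exact h2
  | br t c iht ihc =>
    have h3 := hLMR N (fun v c' => evb N v c c') _ hN ihc
    have h4 := hLMM N _ _ _ _ hN iht h3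
    have hkp := Pool.Agent.W215.AX.kp_ne N
    have hK : Kt N (Tb.br t c) = Kt N t *
        ((-1) ^ (N - 1) * (Complex.I * N ^ 2 / (2 * π)) * Kt N c) := by
      unfold Kt
      have e1 : (Tb.br t c).ws = t.ws + c.ws := rfl
      have e2 : (Tb.br t c).ne = t.ne + c.ne + 1 := rfl
      have e3 : (Tb.br t c).nb = t.nb + c.nb := rfl
      rw [e1, e2, e3, zpow_add₀ hkp, pow_succ, pow_add, pow_add]
      ring
    have h5 : (fun ψ : ℂ => Kt N (Tb.br t c) *
        (Eb (Tb.br t c).bl (Tb.br t c).wt N ψ * XX (Tb.br t c) N ψ)) =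
        fun ψ => Kt N t * (Eb t.bl t.wt N ψ * XX t N ψ) * ((-1) ^ (N - 1) *
          (Complex.I * N ^ 2 / (2 * π)) * upp (1 / N) fun ψ_1 => Kt N c * (Eb c.bl c.wt N ψ_1 *
            XX c N ψ_1) * ker N ψ_1 ψ * kr N ψ_1) := by
      funext ψ
      have e1 : upp (1 / N) (fun ψ_1 => Kt N c * (Eb c.bl c.wt N ψ_1 *
            XX c N ψ_1) * ker N ψ_1 ψ * kr N ψ_1) = Kt N c * stpb c.bl c.wt (XX c) N ψ := by
        unfold stpb
        rw [← Pool.Agent.W803.AR.upp_mul]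
        congr 1
        funext ψ_1
        ring
      rw [e1, hK]
      change _ * (Eb t.bl t.wt N ψ * (XX t N ψ * stpb c.bl c.wt (XX c) N ψ)) = _
      ring
    rw [h5]
    exact h4

theorem rtb_of (hR : S_ROTE) (hLMT : S_LMT) (hLMR : S_LMR) (hLMV : S_LMV) (hLMM : S_LMM) :
    S_RTB := by
  intro t N hN
  refine ⟨cnt t N, ?_⟩
  have hN0 : 0 < N := by omega
  have hLm := lm_tree hLMR hLMV hLMM N hN t
  have hlim := hLMT N _ _ hN hLm
  have e1 : upp (1 / N) (fun ψ => Kt N t * (Eb t.bl t.wt N ψ * XX t N ψ) * kr N ψ) =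
      Kt N t * JT t N := by
    unfold JT
    rw [← Pool.Agent.W803.AR.upp_mul]
    congr 1
    funext ψ
    ring
  rw [e1] at hlim
  have hvN0 : vN N ≠ 0 := Complex.exp_ne_zero _
  have hnorm : ‖vN N‖ = 1 := by
    unfold vN
    have : (π : ℂ) * Complex.I / N = ((π / N : ℝ) : ℂ) * Complex.I := by
      push_cast
      ring
    rw [this, Complex.norm_exp_ofReal_mul_I]
  have hne : (𝓝[{v : ℂ | ‖v‖ ≠ 1}] (vN N)).NeBot := by
    rw [← mem_closure_iff_nhdsWithin_neBot, Metric.mem_closure_iff]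
    intro ε hε
    refine ⟨((1 + ε / 2 : ℝ) : ℂ) * vN N, ?_, ?_⟩
    · simp only [Set.mem_ofPred_eq, norm_mul, hnorm, mul_one, Complex.norm_real, Real.norm_eq_abs]
      rw [abs_of_pos (by linarith)]
      linarith
    · rw [dist_eq_norm]
      have : vN N - ((1 + ε / 2 : ℝ) : ℂ) * vN N = ((-(ε / 2) : ℝ) : ℂ) * vN N := by
        push_cast
        ring
      rw [this, norm_mul, hnorm, mul_one, Complex.norm_real, Real.norm_eq_abs, abs_neg,
        abs_of_pos (by linarith)]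
      linarith
  have hle : 𝓝[{v : ℂ | ‖v‖ ≠ 1}] (vN N) ≤ 𝓝[≠] (vN N) := by
    apply nhdsWithin_mono
    intro v hv hc
    rw [Set.mem_singleton_iff] at hc
    apply hv
    rw [hc, hnorm]
  have h3 : Tendsto (jt t N) (𝓝[{v : ℂ | ‖v‖ ≠ 1}] (vN N)) (𝓝 (jt t N (vN N))) :=
    (cnt t N).tendsto.mono_left nhdsWithin_le_nhds
  have hv0 : ∀ᶠ v in 𝓝[{v : ℂ | ‖v‖ ≠ 1}] (vN N), v ≠ 0 :=
    nhdsWithin_le_nhds (isOpen_ne.mem_nhds hvN0)
  have h5 : Tendsto (jt t N) (𝓝[{v : ℂ | ‖v‖ ≠ 1}] (vN N))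
      (𝓝 (Complex.I * N ^ 2 / (2 * π) * (Kt N t * JT t N))) := by
    refine (hlim.mono_left hle).congr' ?_
    filter_upwards [self_mem_nhdsWithin, hv0] with v hv hv'
    obtain ⟨u, hu, hg⟩ := Pool.Agent.W803.AR.gen_off hv' hv
    have e2 := evt hR u hg N hN0 t
    rw [hu] at e2
    have e3 : br v (N : ℤ) ≠ 0 := by
      rw [← hu]
      exact hg.2 N hN0
    rw [← e2]
    field_simp
  have h6 := tendsto_nhds_unique h3 h5
  rw [h6]
  unfold Kt
  rw [mul_pow, ← pow_mul, pow_succ]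
  ring

theorem rtb : S_RTB :=
  rtb_of Pool.Agent.W637.AR.rote
    (Pool.Agent.W571.AR.lmt Pool.Agent.W490.AR.lmd Pool.Agent.W12.AR.gam_lim)
    (Pool.Agent.W885.AR.lmr Pool.Agent.W490.AR.lmd Pool.Agent.W12.AR.gam_lim)
    Pool.Agent.W199.AR.lmv Pool.Agent.W719.AR.lmm

end Pool.Agent.TH639.J28
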