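import Pool.Agent.TH477.RB.Defs

set_option autoImplicit false

namespace Pool.Agent.TH639.J5

open Finset Pool.Agent.TH477.RB

open Classical in
/-- independent blocks -/
theorem blocks_bound {E B M : Type} [Fintype E] [Fintype B] [Fintype M] (r : ℕ) (hr : 1 ≤ r)
    (g : B × M → E) (hg : Function.Injective g) (c : B → M → Fin r) :
    (Nat.card {φ : E → Fin r // ∀ b, ∃ m, φ (g (b, m)) ≠ c b m} : ℝ) ≤
      (r : ℝ) ^ Fintype.card E * (1 - 1 / (r : ℝ) ^ Fintype.card M) ^ Fintype.card B := by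
  have hr0 : (0 : ℝ) < r := by exact_mod_cast hr
  let F : {φ : E → Fin r // ∀ b, ∃ m, φ (g (b, m)) ≠ c b m} →
      (∀ b : B, {f : M → Fin r | f ≠ c b}) × ({e // e ∉ Set.range g} → Fin r) := fun φ =>
    (fun b => ⟨fun m => φ.1 (g (b, m)), by
      obtain ⟨m, hm⟩ := φ.2 b
      intro h
      exact hm (congrFun h m)⟩, fun e => φ.1 e.1)
  have hF : Function.Injective F := by
    intro φ ψ h
    apply Subtype.ext
    funext e
    by_cases he : e ∈ Set.range g
    · obtain ⟨⟨b, m⟩, rfl⟩ := he
      have h1 := congrArg (fun q => ((q.1 b : {f : M → Fin r | f ≠ c b}) : M → Fin r) m) h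
      exact h1
    · have h1 := congrArg (fun q => q.2 ⟨e, he⟩) h
      exact h1
  have h1 : Nat.card {φ : E → Fin r // ∀ b, ∃ m, φ (g (b, m)) ≠ c b m} ≤
      (r ^ Fintype.card M - 1) ^ Fintype.card B *
        r ^ (Fintype.card E - Fintype.card B * Fintype.card M) := by
    rw [Nat.card_eq_fintype_card]
    refine (Fintype.card_le_of_injective F hF).trans (le_of_eq ?_)
    rw [Fintype.card_prod, Fintype.card_pi, Fintype.card_fun, Fintype.card_fin]
    congr 1
    · have : ∀ b : B, Fintype.card {f : M → Fin r | f ≠ c b} = r ^ Fintype.card M - 1 := by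
        intro b
        rw [Set.card_ne_eq, Fintype.card_fun, Fintype.card_fin]
      rw [Finset.prod_congr rfl fun b _ => this b]
      simp
    · congr 1
      have h2 : Fintype.card {e // e ∉ Set.range g} = Fintype.card E - Fintype.card (Set.range g) :=
        Fintype.card_subtype_compl _
      rw [h2, Set.card_range_of_injective hg, Fintype.card_prod]
  have hBM : Fintype.card B * Fintype.card M ≤ Fintype.card E := by
    rw [← Fintype.card_prod]
    exact Fintype.card_le_of_injective g hg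
  have hone : 1 ≤ r ^ Fintype.card M := Nat.one_le_pow _ _ hr
  calc (Nat.card {φ : E → Fin r // ∀ b, ∃ m, φ (g (b, m)) ≠ c b m} : ℝ)
      ≤ (((r ^ Fintype.card M - 1) ^ Fintype.card B *
        r ^ (Fintype.card E - Fintype.card B * Fintype.card M) : ℕ) : ℝ) := by exact_mod_cast h1
    _ = ((r : ℝ) ^ Fintype.card M - 1) ^ Fintype.card B *
        (r : ℝ) ^ (Fintype.card E - Fintype.card B * Fintype.card M) := by
        push_cast [Nat.cast_sub hone]
        ring
    _ = (r : ℝ) ^ Fintype.card E * (1 - 1 / (r : ℝ) ^ Fintype.card M) ^ Fintype.card B := by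
        have h3 : (r : ℝ) ^ Fintype.card E =
            (r : ℝ) ^ (Fintype.card E - Fintype.card B * Fintype.card M) *
              ((r : ℝ) ^ Fintype.card M) ^ Fintype.card B := by
          rw [← pow_mul, ← pow_add, mul_comm (Fintype.card M)]
          congr 1
          omega
        have h4 : (1 - 1 / (r : ℝ) ^ Fintype.card M) =
            ((r : ℝ) ^ Fintype.card M - 1) / (r : ℝ) ^ Fintype.card M := by
          field_simp
        rw [h3, h4, div_pow]
        field_simp

/-- the pairs `i < j` -/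
abbrev Pr (u : ℕ) : Type := {q : Fin u × Fin u // q.1 < q.2}

/-- the blocks -/
def blk {n u p : ℕ} (e : Fin u → ZMod p → Fin n) (b : (ZMod p × ZMod p) × Pr u) :
    Sym2 (Fin n) :=
  s(e b.2.1.1 (b.1.1 + (b.2.1.1 : ℕ) * b.1.2), e b.2.1.2 (b.1.1 + (b.2.1.2 : ℕ) * b.1.2))

lemma blk_inj {n u p : ℕ} [Fact p.Prime] (hup : u < p) (cls : Fin n → Option (Fin u))
    (e : Fin u → ZMod p → Fin n) (he : ∀ i, Function.Injective (e i))
    (hcls : ∀ i z, cls (e i z) = some i) : Function.Injective (blk e) := by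
  rintro ⟨⟨x, y⟩, ⟨⟨i, j⟩, hij⟩⟩ ⟨⟨x', y'⟩, ⟨⟨i', j'⟩, hij'⟩⟩ h
  simp only at hij hij'
  simp only [blk] at h
  rw [Sym2.eq_iff] at h
  rcases h with ⟨h1, h2⟩ | ⟨h1, h2⟩
  · have hi : i = i' := by
      have := congrArg cls h1
      rw [hcls, hcls] at this
      exact Option.some.inj this
    have hj : j = j' := by
      have := congrArg cls h2
      rw [hcls, hcls] at this
      exact Option.some.inj this
    subst hi
    subst hj
    have h3 := he i h1
    have h4 := he j h2
    have h5 : ((j : ℕ) - (i : ℕ) : ZMod p) * (y - y') = 0 := by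
      linear_combination h4 - h3
    have h6 : ((j : ℕ) - (i : ℕ) : ZMod p) ≠ 0 := by
      intro h7
      have h8 : ((j : ℕ) : ZMod p) = ((i : ℕ) : ZMod p) := by linear_combination h7
      rw [ZMod.natCast_eq_natCast_iff] at h8
      have h9 := Nat.ModEq.eq_of_lt_of_lt h8 (by have := j.2; omega) (by have := i.2; omega)
      rw [Fin.lt_def] at hij
      omega
    have h7 : y = y' := by
      rcases mul_eq_zero.mp h5 with h8 | h8
      · exact absurd h8 h6
      · linear_combination h8
    subst h7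
    have h8 : x = x' := by linear_combination h3
    subst h8
    rfl
  · have hi : i = j' := by
      have := congrArg cls h1
      rw [hcls, hcls] at this
      exact Option.some.inj this
    have hj : j = i' := by
      have := congrArg cls h2
      rw [hcls, hcls] at this
      exact Option.some.inj this
    subst hi
    subst hj
    exact absurd hij (not_lt.mpr hij'.le)

open Classical in
/-- all but an `exp (-c n²)` fraction of the colourings are rich -/
theorem rich_bound (r u : ℕ) (hr : 1 ≤ r) (hu : 2 ≤ u) (δ : ℝ) (hδ : 0 < δ) :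
    ∃ c : ℝ, 0 < c ∧ ∃ n0 : ℕ, ∀ n : ℕ, n0 ≤ n → ∀ cls : Fin n → Option (Fin u),
      (Nat.card {ψ : Sym2 (Fin n) → Fin r // ¬ Rich δ cls ψ} : ℝ) ≤
        Real.exp (-c * (n : ℝ) ^ 2) * (r : ℝ) ^ Fintype.card (Sym2 (Fin n)) := by
  have hr0 : (0 : ℝ) < r := by exact_mod_cast hr
  set K : ℝ := 1 / (r : ℝ) ^ Fintype.card (Pr u) with hK
  have hK0 : 0 < K := by positivity
  have hK1 : K ≤ 1 := by
    rw [hK, div_le_one (by positivity)]
    exact one_le_pow₀ (by exact_mod_cast hr)
  set c : ℝ := K * δ ^ 2 / 8 with hc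
  have hc0 : 0 < c := by positivity
  obtain ⟨n1, hn1⟩ : ∃ n1 : ℕ, 2 * ((u : ℝ) + 1) / δ ≤ n1 := exists_nat_ge _
  obtain ⟨n2, hn2⟩ : ∃ n2 : ℕ, (u * Real.log 2 + u ^ 2 * Real.log r) / c ≤ n2 := exists_nat_ge _
  refine ⟨c, hc0, max (max n1 n2) 1, fun n hn cls => ?_⟩
  have hnn1 : n1 ≤ n := by omega
  have hnn2 : n2 ≤ n := by omega
  have hn0 : 1 ≤ n := by omega
  have hn0' : (1 : ℝ) ≤ n := by exact_mod_cast hn0
  -- the prime
  set N : ℕ := ⌊δ * n / 2⌋₊ with hN
  have hNu : u < N := by
    have h1 : ((u : ℝ) + 1) ≤ δ * n / 2 := by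
      have : 2 * ((u : ℝ) + 1) / δ ≤ n := hn1.trans (by exact_mod_cast hnn1)
      rw [div_le_iff₀ hδ] at this
      linarith
    have h2 : u + 1 ≤ N := by
      rw [hN]
      apply Nat.le_floor
      push_cast
      exact h1
    omega
  obtain ⟨p, hp, hp1, hp2⟩ := Nat.exists_prime_lt_and_le_two_mul N (by omega)
  have : Fact p.Prime := ⟨hp⟩
  have hpu : u < p := by omega
  have hpn : (p : ℝ) ≤ δ * n := by
    have h1 : (N : ℝ) ≤ δ * n / 2 := Nat.floor_le (by positivity)
    have h2 : (p : ℝ) ≤ 2 * N := by exact_mod_cast hp2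
    linarith
  have hpn' : δ * n / 2 ≤ p := by
    have h1 : δ * n / 2 < (N : ℝ) + 1 := Nat.lt_floor_add_one _
    have h2 : (N : ℝ) + 1 ≤ p := by exact_mod_cast hp1
    linarith
  -- the union bound
  let T : Finset ((Fin u → Finset (Fin n)) × (Fin u → Fin u → Fin r)) :=
    univ.filter (fun q => (∀ i, ∀ x ∈ q.1 i, cls x = some i) ∧
      (∀ i, δ * n ≤ ((q.1 i).card : ℝ)))
  let S : ((Fin u → Finset (Fin n)) × (Fin u → Fin u → Fin r)) →
      Finset (Sym2 (Fin n) → Fin r) := fun q =>
    univ.filter (fun ψ => ∀ a : Fin u → Fin n, (∀ i, a i ∈ q.1 i) →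
      ∃ i j, i < j ∧ ψ s(a i, a j) ≠ q.2 i j)
  have hsub : (univ.filter (fun ψ : Sym2 (Fin n) → Fin r => ¬ Rich δ cls ψ)) ⊆ T.biUnion S := by
    intro ψ hψ
    rw [Finset.mem_filter] at hψ
    have hψ := hψ.2
    unfold Rich at hψ
    push Not at hψ
    obtain ⟨A, hA1, hA2, col, hcol⟩ := hψ
    rw [Finset.mem_biUnion]
    refine ⟨(A, col), by simp only [T, Finset.mem_filter, Finset.mem_univ, true_and]; exact ⟨hA1, hA2⟩, ?_⟩
    simp only [S, Finset.mem_filter, Finset.mem_univ, true_and]
    intro a ha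
    exact hcol a ha
  have hsmall : ∀ q ∈ T, ((S q).card : ℝ) ≤
      (r : ℝ) ^ Fintype.card (Sym2 (Fin n)) * Real.exp (-(2 * c * (n : ℝ) ^ 2)) := by
    rintro ⟨A, col⟩ hq
    simp only [T, Finset.mem_filter, Finset.mem_univ, true_and] at hq
    obtain ⟨hA1, hA2⟩ := hq
    have hemb : ∀ i : Fin u, Nonempty (ZMod p ↪ {x // x ∈ A i}) := by
      intro i
      apply Function.Embedding.nonempty_of_card_le
      rw [ZMod.card, Fintype.card_coe]
      have : (p : ℝ) ≤ (A i).card := hpn.trans (hA2 i)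
      exact_mod_cast this
    let E : ∀ i : Fin u, ZMod p ↪ {x // x ∈ A i} := fun i => Classical.choice (hemb i)
    let e : Fin u → ZMod p → Fin n := fun i z => (E i z : Fin n)
    have he : ∀ i, Function.Injective (e i) := fun i z z' h =>
      (E i).injective (Subtype.ext h)
    have heA : ∀ i z, e i z ∈ A i := fun i z => (E i z).2
    have hcl : ∀ i z, cls (e i z) = some i := fun i z => hA1 i _ (heA i z)
    have hbb := blocks_bound r hr (blk e) (blk_inj hpu cls e he hcl)
      (fun _ m => col m.1.1 m.1.2)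
    have h1 : ((S (A, col)).card : ℝ) ≤ (Nat.card {φ : Sym2 (Fin n) → Fin r //
        ∀ b : ZMod p × ZMod p, ∃ m : Pr u, φ (blk e (b, m)) ≠ col m.1.1 m.1.2} : ℝ) := by
      rw [Nat.card_eq_fintype_card, Fintype.card_subtype]
      have : S (A, col) ⊆ univ.filter (fun φ : Sym2 (Fin n) → Fin r =>
          ∀ b : ZMod p × ZMod p, ∃ m : Pr u, φ (blk e (b, m)) ≠ col m.1.1 m.1.2) := by
        intro ψ hψ
        simp only [S, Finset.mem_filter, Finset.mem_univ, true_and] at hψ ⊢
        intro b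
        obtain ⟨i, j, hij, h2⟩ := hψ (fun i => e i (b.1 + (i : ℕ) * b.2)) (fun i => heA i _)
        exact ⟨⟨(i, j), hij⟩, h2⟩
      exact_mod_cast Finset.card_le_card this
    refine h1.trans (hbb.trans ?_)
    apply mul_le_mul_of_nonneg_left _ (by positivity)
    rw [Fintype.card_prod, ZMod.card, ← hK]
    calc (1 - K) ^ (p * p) ≤ (Real.exp (-K)) ^ (p * p) := by
          apply pow_le_pow_left₀ (by linarith)
          have := Real.add_one_le_exp (-K)
          linarith
      _ = Real.exp (-(K * (p * p))) := by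
          rw [← Real.exp_nat_mul]
          push_cast
          ring_nf
      _ ≤ Real.exp (-(2 * c * (n : ℝ) ^ 2)) := by
          apply Real.exp_le_exp.mpr
          rw [hc]
          have h3 : (δ * n / 2) * (δ * n / 2) ≤ (p : ℝ) * p := by
            apply mul_le_mul hpn' hpn' (by positivity) (by positivity)
          nlinarith
  rw [Nat.card_eq_fintype_card, Fintype.card_subtype]
  have hTcard : (T.card : ℝ) ≤ Real.exp (c * (n : ℝ) ^ 2) := by
    have h1 : T.card ≤ (2 ^ n) ^ u * (r ^ u) ^ u := by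
      refine (Finset.card_le_univ T).trans (le_of_eq ?_)
      rw [Fintype.card_prod, Fintype.card_fun, Fintype.card_fun, Fintype.card_fun,
        Fintype.card_finset, Fintype.card_fin, Fintype.card_fin, Fintype.card_fin]
    have h2 : (T.card : ℝ) ≤ ((2 : ℝ) ^ n) ^ u * ((r : ℝ) ^ u) ^ u := by exact_mod_cast h1
    refine h2.trans ?_
    have h3 : ((2 : ℝ) ^ n) ^ u * ((r : ℝ) ^ u) ^ u =
        Real.exp (n * u * Real.log 2 + u ^ 2 * Real.log r) := by
      rw [Real.exp_add]
      congr 1
      · rw [← pow_mul, ← Real.exp_log (by norm_num : (0 : ℝ) < 2), ← Real.exp_nat_mul,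
          Real.log_exp]
        push_cast
        ring_nf
      · rw [← pow_mul]
        conv_lhs => rw [← Real.exp_log hr0]
        rw [← Real.exp_nat_mul]
        push_cast
        ring_nf
    rw [h3]
    apply Real.exp_le_exp.mpr
    have h4 : (u * Real.log 2 + u ^ 2 * Real.log r) ≤ c * n := by
      have : (u * Real.log 2 + u ^ 2 * Real.log r) / c ≤ n := hn2.trans (by exact_mod_cast hnn2)
      rw [div_le_iff₀ hc0] at this
      linarith
    have h5 : 0 ≤ (u : ℝ) ^ 2 * Real.log r := by
      have := Real.log_nonneg (by exact_mod_cast hr : (1 : ℝ) ≤ r)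
      positivity
    calc n * u * Real.log 2 + u ^ 2 * Real.log r
        ≤ n * u * Real.log 2 + n * (u ^ 2 * Real.log r) := by nlinarith
      _ = n * (u * Real.log 2 + u ^ 2 * Real.log r) := by ring
      _ ≤ n * (c * n) := by gcongr
      _ = c * (n : ℝ) ^ 2 := by ring
  have hcards : (univ.filter (fun ψ : Sym2 (Fin n) → Fin r => ¬ Rich δ cls ψ)).card ≤
      ∑ q ∈ T, (S q).card :=
    (Finset.card_le_card hsub).trans Finset.card_biUnion_le
  calc ((univ.filter (fun ψ : Sym2 (Fin n) → Fin r => ¬ Rich δ cls ψ)).card : ℝ)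
      ≤ ((∑ q ∈ T, (S q).card : ℕ) : ℝ) := by exact_mod_cast hcards
    _ ≤ ∑ q ∈ T, ((r : ℝ) ^ Fintype.card (Sym2 (Fin n)) *
          Real.exp (-(2 * c * (n : ℝ) ^ 2))) := by
        rw [Nat.cast_sum]
        exact Finset.sum_le_sum hsmall
    _ = T.card * ((r : ℝ) ^ Fintype.card (Sym2 (Fin n)) *
          Real.exp (-(2 * c * (n : ℝ) ^ 2))) := by
        rw [Finset.sum_const, nsmul_eq_mul]
    _ ≤ Real.exp (c * (n : ℝ) ^ 2) * ((r : ℝ) ^ Fintype.card (Sym2 (Fin n)) *
          Real.exp (-(2 * c * (n : ℝ) ^ 2))) := by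
        gcongr
    _ = Real.exp (-c * (n : ℝ) ^ 2) * (r : ℝ) ^ Fintype.card (Sym2 (Fin n)) := by
        have : Real.exp (-c * (n : ℝ) ^ 2) =
            Real.exp (c * (n : ℝ) ^ 2) * Real.exp (-(2 * c * (n : ℝ) ^ 2)) := by
          rw [← Real.exp_add]
          congr 1
          ring
        rw [this]
        ring

end Pool.Agent.TH639.J5
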