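import Pool.Agent.TH477.RB.Defs

set_option autoImplicit false

namespace Pool.Agent.TH639.J6

open Finset Filter Topology Pool.Agent.TH477.RB

/-- exponential moment bound for the number of `x` with few values outside `J` on `U` -/
lemma count_aux {n r : ℕ} (U : Finset (Fin n)) (J : Finset (Fin r)) (t : ℝ) (ht0 : 0 < t)
    (ht1 : t ≤ 1) (b : ℝ) :
    ((univ.filter (fun x : Fin n → Fin r =>
        ((U.filter (fun y => x y ∉ J)).card : ℝ) ≤ b)).card : ℝ) ≤
      Real.exp (-(b * Real.log t)) * ((J.card : ℝ) + t * r) ^ U.card *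
        (r : ℝ) ^ (n - U.card) := by
  classical
  set w : Fin n → Fin r → ℝ := fun y c => if y ∈ U ∧ c ∉ J then t else 1 with hw
  have hw0 : ∀ y c, 0 ≤ w y c := fun y c => by
    rw [hw]; dsimp only; split_ifs <;> linarith
  have h1 : ∀ x : Fin n → Fin r, t ^ (U.filter (fun y => x y ∉ J)).card = ∏ y, w y (x y) := by
    intro x
    rw [hw]
    dsimp only
    rw [Finset.prod_ite]
    simp only [Finset.prod_const, one_pow, mul_one]
    congr 1
    congr 1
    ext y
    simp
  have h2 : ∑ x : Fin n → Fin r, ∏ y, w y (x y) = ∏ y, ∑ c, w y c := by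
    rw [Finset.prod_univ_sum]
    simp
  have h3 : ∏ y, ∑ c, w y c ≤ ((J.card : ℝ) + t * r) ^ U.card * (r : ℝ) ^ (n - U.card) := by
    have h4 : ∏ y, ∑ c, w y c ≤ ∏ y, (if y ∈ U then ((J.card : ℝ) + t * r) else (r : ℝ)) := by
      apply Finset.prod_le_prod
      · intro y _
        exact Finset.sum_nonneg fun c _ => hw0 y c
      · intro y _
        split_ifs with hy
        · have h5 : ∑ c, w y c = ∑ c : Fin r, ((if c ∈ J then (1 : ℝ) else 0) +
              (if c ∉ J then t else 0)) := by
            apply Finset.sum_congr rfl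
            intro c _
            rw [hw]
            by_cases hc : c ∈ J <;> simp [hc, hy]
          rw [h5, Finset.sum_add_distrib]
          gcongr
          · simp
          · calc ∑ c : Fin r, (if c ∉ J then t else 0) ≤ ∑ c : Fin r, t := by
                  apply Finset.sum_le_sum
                  intro c _
                  split_ifs <;> linarith
              _ = t * r := by simp [mul_comm]
        · apply le_of_eq
          rw [hw]
          simp [hy]
    refine h4.trans (le_of_eq ?_)
    rw [Finset.prod_ite]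
    simp only [Finset.prod_const, Finset.filter_mem_eq_inter, Finset.univ_inter]
    congr 2
    rw [← Finset.compl_filter, Finset.card_compl]
    simp
  have h5 : ((univ.filter (fun x : Fin n → Fin r =>
        ((U.filter (fun y => x y ∉ J)).card : ℝ) ≤ b)).card : ℝ) ≤
      ∑ x : Fin n → Fin r, Real.exp (-(b * Real.log t)) * t ^ (U.filter (fun y => x y ∉ J)).card := by
    rw [Finset.card_eq_sum_ones, Nat.cast_sum, Finset.sum_filter]
    apply Finset.sum_le_sum
    intro x _
    split_ifs with hx
    · rw [← Real.exp_log ht0, ← Real.exp_nat_mul, ← Real.exp_add, Real.log_exp]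
      simp only [Nat.cast_one]
      rw [← Real.exp_zero]
      apply Real.exp_le_exp.mpr
      have := Real.log_nonpos ht0.le ht1
      nlinarith
    · positivity
  refine h5.trans ?_
  rw [← Finset.mul_sum, mul_assoc]
  apply mul_le_mul_of_nonneg_left _ (Real.exp_nonneg _)
  simp only [h1]
  rw [h2]
  exact h3

/-- the key inequality `(e-1)^e < r^(e-1)` -/
lemma key {r u e : ℕ} (hr : (u + 1).choose 2 ≤ r) (he : 1 ≤ e) (heu : e ≤ u) (hr3 : 1 < r) :
    (((e : ℝ) - 1) / r) ^ e < 1 / r := by
  have hr0 : (0 : ℝ) < r := by positivity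
  rcases Nat.lt_or_ge e 2 with h | h
  · have : e = 1 := by omega
    subst this
    simp
    omega
  obtain ⟨k, rfl⟩ : ∃ k, e = k + 2 := ⟨e - 2, by omega⟩
  have h1 : (k + 3).choose 2 ≤ r := le_trans (Nat.choose_le_choose 2 (by omega)) hr
  have h2 : (k + 3) * (k + 2) ≤ 2 * r := by
    have := Nat.choose_two_right (k + 3)
    have h3 : (k + 3) * (k + 3 - 1) / 2 * 2 = (k + 3) * (k + 3 - 1) := by
      apply Nat.div_mul_cancel
      have := Nat.even_mul_pred_self (k + 3)
      exact this.two_dvd
    have h4 : (k + 3) * (k + 3 - 1) = (k + 3) * (k + 2) := by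
      congr 1
    omega
  have h3 : ((k : ℝ) + 3) * (k + 2) ≤ 2 * r := by exact_mod_cast h2
  have h4 : (((k : ℝ) + 1)) * 2 ≤ r := by
    nlinarith [Nat.cast_nonneg (α := ℝ) k]
  have h5 : (k + 1 : ℝ) < 2 ^ (k + 1) := by
    have : k + 1 < 2 ^ (k + 1) := Nat.lt_two_pow_self
    exact_mod_cast this
  have h6 : ((((k + 2 : ℕ) : ℝ) - 1) / r) = ((k : ℝ) + 1) / r := by push_cast; ring
  rw [h6, div_pow, div_lt_div_iff₀ (by positivity) hr0, one_mul]
  have h7 : ((k : ℝ) + 1) ^ (k + 1) * 2 ^ (k + 1) ≤ (r : ℝ) ^ (k + 1) := by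
    rw [← mul_pow]
    exact pow_le_pow_left₀ (by positivity) h4 _
  calc ((k : ℝ) + 1) ^ (k + 2) * r = (((k : ℝ) + 1) ^ (k + 1) * (k + 1)) * r := by ring
    _ < (((k : ℝ) + 1) ^ (k + 1) * 2 ^ (k + 1)) * r := by gcongr
    _ ≤ (r : ℝ) ^ (k + 1) * r := by gcongr
    _ = (r : ℝ) ^ (k + 2) := by ring


lemma params (r u : ℕ) (hu : 2 ≤ u) (hr : (u + 1).choose 2 ≤ r) :
    ∃ t : ℝ, 0 < t ∧ t ≤ 1 ∧ ∃ ε : ℝ, 0 < ε ∧ ∃ η : ℝ, 0 < η ∧ ∃ δ : ℝ, 0 < δ ∧
      ∀ e : ℕ, 1 ≤ e → e ≤ u → Real.log (((e : ℝ) - 1) / r + t) ≤ 0 ∧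
        -(u * r * δ * Real.log t) + e * (1 / u - η) * Real.log (((e : ℝ) - 1) / r + t) ≤
          -(Real.log r / u + 2 * ε) := by
  have hr3 : 3 ≤ r := by
    have : (3 : ℕ).choose 2 ≤ (u + 1).choose 2 := Nat.choose_le_choose 2 (by omega)
    have h : (3 : ℕ).choose 2 = 3 := by decide
    omega
  have hr0 : (0 : ℝ) < r := by positivity
  have hu0 : (0 : ℝ) < u := by positivity
  have hL : 0 < Real.log r := Real.log_pos (by exact_mod_cast (by omega : 1 < r))
  -- step 1
  have h1 : ∀ᶠ t : ℝ in 𝓝[>] 0, ∀ e ∈ Icc 1 u, (((e : ℝ) - 1) / r + t) ^ e < 1 / r := by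
    rw [Finset.eventually_all]
    intro e he
    rw [Finset.mem_Icc] at he
    have hk := key hr he.1 he.2 (by omega)
    have hc : Tendsto (fun t : ℝ => (((e : ℝ) - 1) / r + t) ^ e) (𝓝[>] 0)
        (𝓝 ((((e : ℝ) - 1) / r + 0) ^ e)) := by
      apply Tendsto.mono_left _ nhdsWithin_le_nhds
      exact ((continuous_const.add continuous_id).pow e).tendsto 0
    rw [add_zero] at hc
    exact hc.eventually (eventually_lt_nhds hk)
  have h1' : ∀ᶠ t : ℝ in 𝓝[>] 0, t < 1 :=
    (eventually_lt_nhds (by norm_num : (0 : ℝ) < 1)).filter_mono nhdsWithin_le_nhds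
  obtain ⟨t, ⟨ht1, ht2⟩, ht0⟩ := ((h1.and h1').and self_mem_nhdsWithin).exists
  have ht0' : (0 : ℝ) < t := ht0
  -- step 2
  have h2 : ∀ e ∈ Icc 1 u, (e : ℝ) * Real.log (((e : ℝ) - 1) / r + t) < -Real.log r := by
    intro e he
    have h3 := ht1 e he
    rw [Finset.mem_Icc] at he
    have he1 : (1 : ℝ) ≤ e := by exact_mod_cast he.1
    have hpos : 0 < ((e : ℝ) - 1) / r + t := by
      have : 0 ≤ ((e : ℝ) - 1) / r := div_nonneg (by linarith) hr0.le
      linarith
    have h4 := Real.log_lt_log (pow_pos hpos e) h3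
    rwa [Real.log_pow, one_div, Real.log_inv] at h4
  -- step 3
  have h3 : ∀ᶠ ε : ℝ in 𝓝[>] 0, ∀ e ∈ Icc 1 u,
      (e : ℝ) * Real.log (((e : ℝ) - 1) / r + t) / u + 4 * ε < -Real.log r / u := by
    rw [Finset.eventually_all]
    intro e he
    have h4 := h2 e he
    have hc : Tendsto (fun ε : ℝ => (e : ℝ) * Real.log (((e : ℝ) - 1) / r + t) / u + 4 * ε)
        (𝓝[>] 0) (𝓝 ((e : ℝ) * Real.log (((e : ℝ) - 1) / r + t) / u + 4 * 0)) := by
      apply Tendsto.mono_left _ nhdsWithin_le_nhds
      exact (continuous_const.add (continuous_const.mul continuous_id)).tendsto 0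
    rw [mul_zero, add_zero] at hc
    exact hc.eventually (eventually_lt_nhds (by gcongr))
  obtain ⟨ε, hε1, hε0⟩ := (h3.and self_mem_nhdsWithin).exists
  have hε0' : (0 : ℝ) < ε := hε0
  -- step 4
  have h4 : ∀ᶠ η : ℝ in 𝓝[>] 0, ∀ e ∈ Icc 1 u,
      -((e : ℝ) * η * Real.log (((e : ℝ) - 1) / r + t)) < ε := by
    rw [Finset.eventually_all]
    intro e he
    have hc : Tendsto (fun η : ℝ => -((e : ℝ) * η * Real.log (((e : ℝ) - 1) / r + t)))
        (𝓝[>] 0) (𝓝 (-((e : ℝ) * 0 * Real.log (((e : ℝ) - 1) / r + t)))) := by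
      apply Tendsto.mono_left _ nhdsWithin_le_nhds
      exact ((continuous_const.mul continuous_id).mul continuous_const).neg.tendsto 0
    rw [mul_zero, zero_mul, neg_zero] at hc
    exact hc.eventually (eventually_lt_nhds hε0')
  obtain ⟨η, hη1, hη0⟩ := (h4.and self_mem_nhdsWithin).exists
  have hη0' : (0 : ℝ) < η := hη0
  -- step 5
  have h5 : ∀ᶠ δ : ℝ in 𝓝[>] 0, -((u : ℝ) * r * δ * Real.log t) < ε := by
    have hc : Tendsto (fun δ : ℝ => -((u : ℝ) * r * δ * Real.log t))
        (𝓝[>] 0) (𝓝 (-((u : ℝ) * r * 0 * Real.log t))) := by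
      apply Tendsto.mono_left _ nhdsWithin_le_nhds
      exact ((continuous_const.mul continuous_id).mul continuous_const).neg.tendsto 0
    rw [mul_zero, zero_mul, neg_zero] at hc
    exact hc.eventually (eventually_lt_nhds hε0')
  obtain ⟨δ, hδ1, hδ0⟩ := (h5.and self_mem_nhdsWithin).exists
  refine ⟨t, ht0', ht2.le, ε, hε0', η, hη0', δ, hδ0, fun e he heu => ?_⟩
  have hmem : e ∈ Icc 1 u := Finset.mem_Icc.mpr ⟨he, heu⟩
  have he1 : (1 : ℝ) ≤ e := by exact_mod_cast he
  have g2 := h2 e hmem
  have g3 := hε1 e hmem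
  have g4 := hη1 e hmem
  refine ⟨?_, ?_⟩
  · by_contra hcon
    push Not at hcon
    have : 0 < (e : ℝ) * Real.log (((e : ℝ) - 1) / r + t) := by positivity
    linarith
  · have h6 : (e : ℝ) * (1 / u - η) * Real.log (((e : ℝ) - 1) / r + t) =
        (e : ℝ) * Real.log (((e : ℝ) - 1) / r + t) / u -
          (e : ℝ) * η * Real.log (((e : ℝ) - 1) / r + t) := by ring
    rw [h6]
    have h7 : -Real.log r / u = -(Real.log r / u) := by ring
    rw [h7] at g3
    linarith

open Classical in
/-- Few colourings of a star violate Hall's condition for the frequent colours. -/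
theorem ext_bound (r u : ℕ) (hu : 2 ≤ u) (hr : (u + 1).choose 2 ≤ r) :
    ∃ γ : ℝ, 0 < γ ∧ ∃ η : ℝ, 0 < η ∧ ∃ δ : ℝ, 0 < δ ∧ ∃ n0 : ℕ, ∀ n : ℕ, n0 ≤ n →
      ∀ cls : Fin n → Option (Fin u),
      (∀ i, |((univ.filter (fun y => cls y = some i)).card : ℝ) - n / u| ≤ η * n) →
      (Nat.card {x : Fin n → Fin r // ¬ ∃ c : Fin u → Fin r, Function.Injective c ∧
          ∀ i, δ * n ≤ ((univ.filter (fun y => cls y = some i ∧ x y = c i)).card : ℝ)} : ℝ) ≤
        (r : ℝ) ^ n * Real.exp (-(Real.log r / u + γ) * n) := by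
  obtain ⟨t, ht0, ht1, ε, hε, η, hη, δ, hδ, hpar⟩ := params r u hu hr
  have hr3 : 3 ≤ r := by
    have : (3 : ℕ).choose 2 ≤ (u + 1).choose 2 := Nat.choose_le_choose 2 (by omega)
    have h : (3 : ℕ).choose 2 = 3 := by decide
    omega
  have hr0 : (0 : ℝ) < r := by positivity
  have hu0 : (0 : ℝ) < u := by positivity
  obtain ⟨n0, hn0⟩ : ∃ n0 : ℕ, ((u : ℝ) + r) * Real.log 2 / ε ≤ n0 := exists_nat_ge _
  refine ⟨ε, hε, η, hη, δ, hδ, n0, fun n hn cls hcls => ?_⟩
  set b : ℝ := u * r * δ * n with hb
  let U : Finset (Fin u) → Finset (Fin n) := fun I => univ.filter (fun y => ∃ i ∈ I, cls y = some i)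
  let S : Finset (Fin u) × Finset (Fin r) → Finset (Fin n → Fin r) := fun p =>
    univ.filter (fun x => ((( U p.1).filter (fun y => x y ∉ p.2)).card : ℝ) ≤ b)
  let T : Finset (Finset (Fin u) × Finset (Fin r)) := univ.filter (fun p => p.2.card < p.1.card)
  -- every bad colouring is in one of the sets
  have hsub : (univ.filter (fun x : Fin n → Fin r => ¬ ∃ c : Fin u → Fin r,
      Function.Injective c ∧
        ∀ i, δ * n ≤ ((univ.filter (fun y => cls y = some i ∧ x y = c i)).card : ℝ))) ⊆
      T.biUnion S := by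
    intro x hx
    rw [Finset.mem_filter] at hx
    have hx := hx.2
    let P : Fin u → Finset (Fin r) := fun i => univ.filter (fun c =>
      δ * n ≤ ((univ.filter (fun y => cls y = some i ∧ x y = c)).card : ℝ))
    have hall := Finset.all_card_le_biUnion_card_iff_exists_injective P
    have hnot : ¬ ∃ f : Fin u → Fin r, Function.Injective f ∧ ∀ x, f x ∈ P x := by
      rintro ⟨f, hf, hfP⟩
      exact hx ⟨f, hf, fun i => by simpa [P] using hfP i⟩
    rw [← hall] at hnot
    push Not at hnot
    obtain ⟨I, hI⟩ := hnot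
    rw [Finset.mem_biUnion]
    refine ⟨(I, I.biUnion P), by simp [T, hI], ?_⟩
    simp only [S, Finset.mem_filter, Finset.mem_univ, true_and]
    -- count the exceptional vertices
    have h1 : (U I).filter (fun y => x y ∉ I.biUnion P) ⊆
        (I ×ˢ (univ : Finset (Fin r))).biUnion (fun q =>
          if q.2 ∈ P q.1 then ∅ else univ.filter (fun y => cls y = some q.1 ∧ x y = q.2)) := by
      intro y hy
      simp only [U, Finset.mem_filter, Finset.mem_univ, true_and, Finset.mem_biUnion,
        not_exists, not_and] at hy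
      obtain ⟨⟨i, hi, hyi⟩, hy2⟩ := hy
      rw [Finset.mem_biUnion]
      refine ⟨(i, x y), by simp [hi], ?_⟩
      dsimp only
      rw [if_neg (hy2 i hi)]
      simp [hyi]
    have h2 : (((U I).filter (fun y => x y ∉ I.biUnion P)).card : ℝ) ≤
        ∑ q ∈ I ×ˢ (univ : Finset (Fin r)), δ * n := by
      have h1' : ((U I).filter (fun y => x y ∉ I.biUnion P)).card ≤
          ∑ q ∈ I ×ˢ (univ : Finset (Fin r)), (if q.2 ∈ P q.1 then ∅ else
              univ.filter (fun y => cls y = some q.1 ∧ x y = q.2)).card :=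
        (Finset.card_le_card h1).trans Finset.card_biUnion_le
      calc (((U I).filter (fun y => x y ∉ I.biUnion P)).card : ℝ)
          ≤ ((∑ q ∈ I ×ˢ (univ : Finset (Fin r)), (if q.2 ∈ P q.1 then ∅ else
              univ.filter (fun y => cls y = some q.1 ∧ x y = q.2)).card : ℕ) : ℝ) := by
            exact_mod_cast h1'
        _ ≤ _ := by
            rw [Nat.cast_sum]
            apply Finset.sum_le_sum
            intro q _
            split_ifs with hq
            · simp only [Finset.card_empty, Nat.cast_zero]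
              positivity
            · simp only [P, Finset.mem_filter, Finset.mem_univ, true_and, not_le] at hq
              exact hq.le
    refine h2.trans ?_
    rw [Finset.sum_const, Finset.card_product, Finset.card_univ, Fintype.card_fin, nsmul_eq_mul, hb]
    have h3 : (I.card : ℝ) ≤ u := by
      have := Finset.card_le_univ I
      rw [Fintype.card_fin] at this
      exact_mod_cast this
    push_cast
    have h4 : 0 ≤ (r : ℝ) * (δ * n) := by positivity
    nlinarith
  -- each set is small
  have hsmall : ∀ p ∈ T, ((S p).card : ℝ) ≤ (r : ℝ) ^ n *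
      Real.exp (-(Real.log r / u + 2 * ε) * n) := by
    rintro ⟨I, J⟩ hp
    simp only [T, Finset.mem_filter, Finset.mem_univ, true_and] at hp
    have hIu : I.card ≤ u := by
      have := Finset.card_le_univ I
      rwa [Fintype.card_fin] at this
    obtain ⟨ha, hq⟩ := hpar I.card (by omega) hIu
    have he1 : (1 : ℝ) ≤ I.card := by exact_mod_cast (by omega : 1 ≤ I.card)
    have hJ : (J.card : ℝ) ≤ (I.card : ℝ) - 1 := by
      have : J.card + 1 ≤ I.card := hp
      have : (J.card : ℝ) + 1 ≤ I.card := by exact_mod_cast this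
      linarith
    set a := Real.log (((I.card : ℝ) - 1) / r + t) with hadef
    have hpos : 0 < ((I.card : ℝ) - 1) / r + t := by
      have : 0 ≤ ((I.card : ℝ) - 1) / r := div_nonneg (by linarith) hr0.le
      linarith
    have hUn : (U I).card ≤ n := by
      have := Finset.card_le_univ (U I)
      rwa [Fintype.card_fin] at this
    have hUcard : (I.card : ℝ) * (1 / u - η) * n ≤ (U I).card := by
      have h1 : U I = I.biUnion (fun i => univ.filter (fun y => cls y = some i)) := by
        ext y
        simp [U]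
      have h2 : (U I).card = ∑ i ∈ I, (univ.filter (fun y => cls y = some i)).card := by
        rw [h1, Finset.card_biUnion]
        intro i _ j _ hij
        rw [Function.onFun, Finset.disjoint_left]
        intro y hy hy'
        simp only [Finset.mem_filter, Finset.mem_univ, true_and] at hy hy'
        rw [hy] at hy'
        exact hij (Option.some.inj hy')
      rw [h2, Nat.cast_sum]
      have h3 : ∑ i ∈ I, ((1 / u - η) * n : ℝ) ≤
          ∑ i ∈ I, ((univ.filter (fun y => cls y = some i)).card : ℝ) := by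
        apply Finset.sum_le_sum
        intro i _
        have := (abs_le.mp (hcls i)).1
        have h4 : (1 / (u : ℝ) - η) * n = n / u - η * n := by ring
        rw [h4]
        linarith
      refine le_trans (le_of_eq ?_) h3
      rw [Finset.sum_const, nsmul_eq_mul]
      ring
    have h1 := count_aux (U I) J t ht0 ht1 b
    refine h1.trans ?_
    have h2 : ((J.card : ℝ) + t * r) ^ (U I).card * (r : ℝ) ^ (n - (U I).card) ≤
        (r : ℝ) ^ n * Real.exp (a * (I.card * (1 / u - η) * n)) := by
      have h3 : (J.card : ℝ) + t * r ≤ r * (((I.card : ℝ) - 1) / r + t) := by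
        have : r * (((I.card : ℝ) - 1) / r + t) = ((I.card : ℝ) - 1) + t * r := by
          field_simp
        rw [this]
        linarith
      calc ((J.card : ℝ) + t * r) ^ (U I).card * (r : ℝ) ^ (n - (U I).card)
          ≤ (r * (((I.card : ℝ) - 1) / r + t)) ^ (U I).card * (r : ℝ) ^ (n - (U I).card) := by
            gcongr
        _ = (r : ℝ) ^ n * (((I.card : ℝ) - 1) / r + t) ^ (U I).card := by
            rw [mul_pow]
            have : (r : ℝ) ^ n = (r : ℝ) ^ (U I).card * (r : ℝ) ^ (n - (U I).card) := by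
              rw [← pow_add]
              congr 1
              omega
            rw [this]
            ring
        _ = (r : ℝ) ^ n * Real.exp ((U I).card * a) := by
            rw [Real.exp_nat_mul, hadef, Real.exp_log hpos]
        _ ≤ (r : ℝ) ^ n * Real.exp (a * (I.card * (1 / u - η) * n)) := by
            apply mul_le_mul_of_nonneg_left _ (by positivity)
            apply Real.exp_le_exp.mpr
            rw [mul_comm]
            exact mul_le_mul_of_nonpos_left hUcard ha
    rw [mul_assoc]
    calc Real.exp (-(b * Real.log t)) *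
          (((J.card : ℝ) + t * r) ^ (U I).card * (r : ℝ) ^ (n - (U I).card))
        ≤ Real.exp (-(b * Real.log t)) *
          ((r : ℝ) ^ n * Real.exp (a * (I.card * (1 / u - η) * n))) := by
          gcongr
      _ = (r : ℝ) ^ n * Real.exp ((-(u * r * δ * Real.log t) +
            I.card * (1 / u - η) * a) * n) := by
          have : Real.exp ((-(u * r * δ * Real.log t) + I.card * (1 / u - η) * a) * n) =
              Real.exp (-(b * Real.log t)) * Real.exp (a * (I.card * (1 / u - η) * n)) := by
            rw [← Real.exp_add, hb]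
            congr 1
            ring
          rw [this]
          ring
      _ ≤ _ := by
          gcongr
  rw [Nat.card_eq_fintype_card, Fintype.card_subtype]
  calc ((univ.filter (fun x : Fin n → Fin r => ¬ ∃ c : Fin u → Fin r,
      Function.Injective c ∧
        ∀ i, δ * n ≤ ((univ.filter (fun y => cls y = some i ∧ x y = c i)).card : ℝ))).card : ℝ)
      ≤ ((T.biUnion S).card : ℝ) := by exact_mod_cast Finset.card_le_card hsub
    _ ≤ ((∑ p ∈ T, (S p).card : ℕ) : ℝ) := by exact_mod_cast Finset.card_biUnion_le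
    _ ≤ ∑ p ∈ T, ((r : ℝ) ^ n * Real.exp (-(Real.log r / u + 2 * ε) * n)) := by
        rw [Nat.cast_sum]
        exact Finset.sum_le_sum hsmall
    _ = T.card * ((r : ℝ) ^ n * Real.exp (-(Real.log r / u + 2 * ε) * n)) := by
        rw [Finset.sum_const, nsmul_eq_mul]
    _ ≤ Real.exp (ε * n) * ((r : ℝ) ^ n * Real.exp (-(Real.log r / u + 2 * ε) * n)) := by
        gcongr
        have h1 : (T.card : ℝ) ≤ 2 ^ (u + r) := by
          have : T.card ≤ 2 ^ (u + r) := by
            refine (Finset.card_le_univ T).trans ?_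
            rw [Fintype.card_prod, Fintype.card_finset, Fintype.card_finset, Fintype.card_fin,
              Fintype.card_fin, pow_add]
          exact_mod_cast this
        refine h1.trans ?_
        have h2 : (2 : ℝ) ^ (u + r) = Real.exp (((u : ℝ) + r) * Real.log 2) := by
          rw [mul_comm, Real.exp_mul, Real.exp_log (by norm_num)]
          rw [← Real.rpow_natCast]
          push_cast
          rfl
        rw [h2]
        apply Real.exp_le_exp.mpr
        have h3 : ((u : ℝ) + r) * Real.log 2 / ε ≤ n := hn0.trans (by exact_mod_cast hn)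
        rw [div_le_iff₀ hε] at h3
        linarith
    _ = (r : ℝ) ^ n * Real.exp (-(Real.log r / u + ε) * n) := by
        have : Real.exp (-(Real.log r / u + ε) * n) =
            Real.exp (ε * n) * Real.exp (-(Real.log r / u + 2 * ε) * n) := by
          rw [← Real.exp_add]
          congr 1
          ring
        rw [this]
        ring

end Pool.Agent.TH639.J6
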