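import Pool.Agent.Helper770.Straight

set_option autoImplicit false
set_option linter.unusedSimpArgs false
set_option linter.unusedVariables false

namespace Pool.Agent.TH639.J31

open Pool.Agent.Helper770.Crossing Pool.Agent.Helper770.Straight
open Filter Topology

/-- No three arcs of the drawing pass through a common interior point. -/
def NoTriple {V : Type*} {G : SimpleGraph V} (D : Drawing G) : Prop :=
  ∀ e ∈ G.edgeSet, ∀ f ∈ G.edgeSet, ∀ g ∈ G.edgeSet, e ≠ f → e ≠ g → f ≠ g → ∀ z,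
    ¬ (z ∈ D.arc e '' Set.Ioo (0 : ℝ) 1 ∧ z ∈ D.arc f '' Set.Ioo (0 : ℝ) 1 ∧
      z ∈ D.arc g '' Set.Ioo (0 : ℝ) 1)

/-- The points `a, b` are strictly separated from the points `c, d` by a line. -/
def Sepr (a b c d : ℂ) : Prop :=
  ∃ α β γ : ℝ, α * a.re + β * a.im < γ ∧ α * b.re + β * b.im < γ ∧
    γ < α * c.re + β * c.im ∧ γ < α * d.re + β * d.im

lemma sepr_disjoint {a b c d : ℂ} (h : Sepr a b c d) (h1 : ori a b c * ori a b d < 0)
    (h2 : ori c d a * ori c d b < 0) : False := by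
  obtain ⟨α, β, γ, ha, hb, hc, hd⟩ := h
  have e1 : ori c d a - ori c d b = ori a b d - ori a b c := by
    simp only [ori]; ring
  have e2 : -(ori c d b) * (α * a.re + β * a.im - γ) + ori c d a * (α * b.re + β * b.im - γ) =
      ori a b d * (α * c.re + β * c.im - γ) - ori a b c * (α * d.re + β * d.im - γ) := by
    simp only [ori]; ring
  have ha' : α * a.re + β * a.im - γ < 0 := by linarith
  have hb' : α * b.re + β * b.im - γ < 0 := by linarith
  have hc' : 0 < α * c.re + β * c.im - γ := by linarith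
  have hd' : 0 < α * d.re + β * d.im - γ := by linarith
  generalize α * a.re + β * a.im - γ = la at *
  generalize α * b.re + β * b.im - γ = lb at *
  generalize α * c.re + β * c.im - γ = lc at *
  generalize α * d.re + β * d.im - γ = ld at *
  generalize ori c d a = p at *
  generalize ori c d b = q at *
  generalize ori a b c = u at *
  generalize ori a b d = v at *
  rcases mul_neg_iff.mp h2 with ⟨hp, hq⟩ | ⟨hp, hq⟩
  · rcases mul_neg_iff.mp h1 with ⟨hu, hv⟩ | ⟨hu, hv⟩
    · linarith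
    · have t1 : 0 < q * la := mul_pos_of_neg_of_neg hq ha'
      have t2 : p * lb < 0 := mul_neg_of_pos_of_neg hp hb'
      have t3 : 0 < v * lc := mul_pos hv hc'
      have t4 : u * ld < 0 := mul_neg_of_neg_of_pos hu hd'
      linarith
  · rcases mul_neg_iff.mp h1 with ⟨hu, hv⟩ | ⟨hu, hv⟩
    · have t1 : q * la < 0 := mul_neg_of_pos_of_neg hq ha'
      have t2 : 0 < p * lb := mul_pos_of_neg_of_neg hp hb'
      have t3 : v * lc < 0 := mul_neg_of_neg_of_pos hv hc'
      have t4 : 0 < u * ld := mul_pos hu hd'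
      linarith
    · linarith

/-- `D(z1,...,z6) = 0` iff the three lines are concurrent or parallel -/
def conc (a b c d e f : ℂ) : ℝ :=
  (a.im - b.im) * ((d.re - c.re) * (e.re * f.im - f.re * e.im) -
      (f.re - e.re) * (c.re * d.im - d.re * c.im)) -
    (b.re - a.re) * ((c.im - d.im) * (e.re * f.im - f.re * e.im) -
      (e.im - f.im) * (c.re * d.im - d.re * c.im)) +
    (a.re * b.im - b.re * a.im) * ((c.im - d.im) * (f.re - e.re) -
      (e.im - f.im) * (d.re - c.re))

lemma conc_eq_zero {a b c d e f z : ℂ} {r s t : ℝ} (h1 : seg a b r = z) (h2 : seg c d s = z)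
    (h3 : seg e f t = z) : conc a b c d e f = 0 := by
  have k1 : (a.im - b.im) * z.re + (b.re - a.re) * z.im + (a.re * b.im - b.re * a.im) = 0 := by
    rw [← h1]; simp only [seg]; ring
  have k2 : (c.im - d.im) * z.re + (d.re - c.re) * z.im + (c.re * d.im - d.re * c.im) = 0 := by
    rw [← h2]; simp only [seg]; ring
  have k3 : (e.im - f.im) * z.re + (f.re - e.re) * z.im + (e.re * f.im - f.re * e.im) = 0 := by
    rw [← h3]; simp only [seg]; ring
  unfold conc
  linear_combination ((c.im - d.im) * (f.re - e.re) - (e.im - f.im) * (d.re - c.re)) * k1 -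
    ((a.im - b.im) * (f.re - e.re) - (e.im - f.im) * (b.re - a.re)) * k2 +
    ((a.im - b.im) * (d.re - c.re) - (c.im - d.im) * (b.re - a.re)) * k3

section Poly

variable {V : Type*}

open MvPolynomial

/-- the point of the vertex `v` -/
def pt (x : V × Bool → ℝ) (v : V) : ℂ := ⟨x (v, false), x (v, true)⟩

/-- coordinates -/
noncomputable def cx (v : V) : MvPolynomial (V × Bool) ℝ := X (v, false)

/-- coordinates -/
noncomputable def cy (v : V) : MvPolynomial (V × Bool) ℝ := X (v, true)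

/-- the polynomial of `ori` -/
noncomputable def oriP (a b c : V) : MvPolynomial (V × Bool) ℝ :=
  (cx b - cx a) * (cy c - cy a) - (cy b - cy a) * (cx c - cx a)

/-- the polynomial of `conc` -/
noncomputable def concP (a b c d e f : V) : MvPolynomial (V × Bool) ℝ :=
  (cy a - cy b) * ((cx d - cx c) * (cx e * cy f - cx f * cy e) -
      (cx f - cx e) * (cx c * cy d - cx d * cy c)) -
    (cx b - cx a) * ((cy c - cy d) * (cx e * cy f - cx f * cy e) -
      (cy e - cy f) * (cx c * cy d - cx d * cy c)) +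
    (cx a * cy b - cx b * cy a) * ((cy c - cy d) * (cx f - cx e) -
      (cy e - cy f) * (cx d - cx c))

lemma eval_oriP (x : V × Bool → ℝ) (a b c : V) :
    eval x (oriP a b c) = ori (pt x a) (pt x b) (pt x c) := by
  simp [oriP, ori, pt, cx, cy]

lemma eval_concP (x : V × Bool → ℝ) (a b c d e f : V) :
    eval x (concP a b c d e f) = conc (pt x a) (pt x b) (pt x c) (pt x d) (pt x e) (pt x f) := by
  simp [concP, conc, pt, cx, cy]

open Classical in
lemma oriP_ne {a b c : V} (h1 : a ≠ b) (h2 : c ≠ a) (h3 : c ≠ b) : oriP a b c ≠ 0 := by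
  intro h
  have := congrArg (eval (fun p : V × Bool => if p.1 = b ∧ p.2 = false then (1 : ℝ) else
    if p.1 = c ∧ p.2 = true then 1 else 0)) h
  simp [oriP, cx, cy, h1, h2, h3, h1.symm, h2.symm, h3.symm] at this

open Classical in
lemma concP_ne {a b c d e f : V} (hab : a ≠ b) (hac : a ≠ c) (had : a ≠ d) (hae : a ≠ e)
    (haf : a ≠ f) (hbc : b ≠ c) (hbd : b ≠ d) (hbe : b ≠ e) (hbf : b ≠ f) (hcd : c ≠ d)
    (hce : c ≠ e) (hcf : c ≠ f) (hde : d ≠ e) (hdf : d ≠ f) (hef : e ≠ f) :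
    concP a b c d e f ≠ 0 := by
  intro h
  -- a = (0,0), b = (1,0), c = (0,0), d = (0,1), e = (0,1), f = (1,0)
  have := congrArg (eval (fun p : V × Bool => if p.1 = b ∧ p.2 = false then (1 : ℝ) else
    if p.1 = d ∧ p.2 = true then 1 else if p.1 = e ∧ p.2 = true then 1 else
    if p.1 = f ∧ p.2 = false then 1 else 0)) h
  simp [concP, cx, cy, hab, hac, had, hae, haf, hbc, hbd, hbe, hbf, hcd, hce, hcf, hde, hdf, hef,
    hab.symm, hac.symm, had.symm, hae.symm, haf.symm, hbc.symm, hbd.symm, hbe.symm, hbf.symm,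
    hcd.symm, hce.symm, hcf.symm, hde.symm, hdf.symm, hef.symm] at this

/-- six different vertices -/
def Six (a b c d e f : V) : Prop :=
  a ≠ b ∧ a ≠ c ∧ a ≠ d ∧ a ≠ e ∧ a ≠ f ∧ b ≠ c ∧ b ≠ d ∧ b ≠ e ∧ b ≠ f ∧ c ≠ d ∧ c ≠ e ∧
    c ≠ f ∧ d ≠ e ∧ d ≠ f ∧ e ≠ f

open Classical in
/-- points in general position close to given points -/
lemma exists_general [Finite V] (q : V × Bool → ℝ) (ε : ℝ) (hε : 0 < ε) :
    ∃ x : V × Bool → ℝ, (∀ i, |x i - q i| < ε) ∧ GenPos (pt x) ∧
      ∀ a b c d e f : V, Six a b c d e f →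
        conc (pt x a) (pt x b) (pt x c) (pt x d) (pt x e) (pt x f) ≠ 0 := by
  cases nonempty_fintype V
  let Φ : MvPolynomial (V × Bool) ℝ :=
    ((∏ p : V × V, if p.1 ≠ p.2 then cx p.1 - cx p.2 else 1) *
      ∏ p : V × V × V, if p.1 ≠ p.2.1 ∧ p.2.2 ≠ p.1 ∧ p.2.2 ≠ p.2.1 then oriP p.1 p.2.1 p.2.2
        else 1) *
      ∏ p : V × V × V × V × V × V, if Six p.1 p.2.1 p.2.2.1 p.2.2.2.1 p.2.2.2.2.1 p.2.2.2.2.2 then
        concP p.1 p.2.1 p.2.2.1 p.2.2.2.1 p.2.2.2.2.1 p.2.2.2.2.2 else 1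
  have hΦ : Φ ≠ 0 := by
    refine mul_ne_zero (mul_ne_zero ?_ ?_) ?_
    · rw [Finset.prod_ne_zero_iff]
      rintro ⟨a, b⟩ _
      split_ifs with h
      · intro h0
        have := congrArg (eval (fun p : V × Bool => if p.1 = a then (1 : ℝ) else 0)) h0
        simp [cx, Ne.symm h] at this
      · exact one_ne_zero
    · rw [Finset.prod_ne_zero_iff]
      rintro ⟨a, b, c⟩ _
      split_ifs with h
      · exact oriP_ne h.1 h.2.1 h.2.2
      · exact one_ne_zero
    · rw [Finset.prod_ne_zero_iff]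
      rintro ⟨a, b, c, d, e, f⟩ _
      split_ifs with h
      · obtain ⟨h1, h2, h3, h4, h5, h6, h7, h8, h9, h10, h11, h12, h13, h14, h15⟩ := h
        exact concP_ne h1 h2 h3 h4 h5 h6 h7 h8 h9 h10 h11 h12 h13 h14 h15
      · exact one_ne_zero
  obtain ⟨x, hx, hxΦ⟩ : ∃ x : V × Bool → ℝ, (∀ i, |x i - q i| < ε) ∧ eval x Φ ≠ 0 := by
    by_contra hcon
    push Not at hcon
    apply hΦ
    apply MvPolynomial.funext_set (fun i => Set.Ioo (q i - ε) (q i + ε))
      (fun i => Set.Ioo_infinite (by linarith))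
    intro x hx
    rw [map_zero]
    apply hcon
    intro i
    have := hx i (Set.mem_univ i)
    rw [abs_lt]
    constructor <;> linarith [this.1, this.2]
  refine ⟨x, hx, ⟨?_, ?_⟩, ?_⟩
  · intro a b hab
    by_contra hne
    have h1 := (mul_ne_zero_iff.mp (mul_ne_zero_iff.mp (by simpa only [Φ, map_mul] using hxΦ)).1).1
    rw [map_prod, Finset.prod_ne_zero_iff] at h1
    have h2 := h1 (a, b) (Finset.mem_univ _)
    simp only [ne_eq, hne, not_false_eq_true, if_true, cx, map_sub, eval_X] at h2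
    apply h2
    have h3 := congrArg Complex.re hab
    simp only [pt] at h3
    rw [h3, sub_self]
  · intro a b c hab hca hcb
    have h1 := (mul_ne_zero_iff.mp (mul_ne_zero_iff.mp (by simpa only [Φ, map_mul] using hxΦ)).1).2
    rw [map_prod, Finset.prod_ne_zero_iff] at h1
    have h2 := h1 (a, b, c) (Finset.mem_univ _)
    rw [if_pos ⟨hab, hca, hcb⟩, eval_oriP] at h2
    exact h2
  · intro a b c d e f h6
    have h1 := (mul_ne_zero_iff.mp (by simpa only [Φ, map_mul] using hxΦ)).2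
    rw [map_prod, Finset.prod_ne_zero_iff] at h1
    have h2 := h1 (a, b, c, d, e, f) (Finset.mem_univ _)
    rw [if_pos h6, eval_concP] at h2
    exact h2

end Poly

lemma sepr_open {V : Type*} [Finite V] (Q : V → ℂ) : ∀ᶠ P : V → ℂ in 𝓝 Q, ∀ p : V × V × V × V,
    Sepr (Q p.1) (Q p.2.1) (Q p.2.2.1) (Q p.2.2.2) →
      Sepr (P p.1) (P p.2.1) (P p.2.2.1) (P p.2.2.2) := by
  rw [Filter.eventually_all]
  rintro ⟨a, b, c, d⟩
  by_cases h : Sepr (Q a) (Q b) (Q c) (Q d)
  · obtain ⟨α, β, γ, h1, h2, h3, h4⟩ := h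
    have hc : ∀ v : V, Continuous (fun P : V → ℂ => α * (P v).re + β * (P v).im) := fun v => by
      fun_prop
    filter_upwards [(hc a).continuousAt.eventually (eventually_lt_nhds h1),
      (hc b).continuousAt.eventually (eventually_lt_nhds h2),
      (hc c).continuousAt.eventually (eventually_gt_nhds h3),
      (hc d).continuousAt.eventually (eventually_gt_nhds h4)] with P k1 k2 k3 k4 _
    exact ⟨α, β, γ, k1, k2, k3, k4⟩
  · exact Eventually.of_forall fun P h' => absurd h' h

lemma disj_of_common {V : Type*} {G : SimpleGraph V} {P : V → ℂ} (h : GenPos P) {e f : Sym2 V}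
    (he : e ∈ G.edgeSet) (hf : f ∈ G.edgeSet) (hef : e ≠ f) {z : ℂ}
    (h1 : z ∈ (straight G P h).arc e '' Set.Ioo (0 : ℝ) 1)
    (h2 : z ∈ (straight G P h).arc f '' Set.Ioo (0 : ℝ) 1) : ∀ v ∈ e, v ∉ f := by
  obtain ⟨a, b, c, d, -, -, hab, hac, had, hbc, hbd, hcd, hx, -, -⟩ :=
    crossing_form h (x := (s(e, f), z)) ⟨e, he, f, hf, hef, rfl, h1, h2⟩
  simp only at hx
  intro v hve hvf
  rcases Sym2.eq_iff.mp hx with ⟨r1, r2⟩ | ⟨r1, r2⟩
  · rw [r1, Sym2.mem_iff] at hve
    rw [r2, Sym2.mem_iff] at hvf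
    rcases hve with rfl | rfl <;> rcases hvf with hh | hh
    · exact hac hh
    · exact had hh
    · exact hbc hh
    · exact hbd hh
  · rw [r1, Sym2.mem_iff] at hve
    rw [r2, Sym2.mem_iff] at hvf
    rcases hve with rfl | rfl <;> rcases hvf with hh | hh
    · exact hac hh.symm
    · exact hbc hh.symm
    · exact had hh.symm
    · exact hbd hh.symm

lemma out_ne {V : Type*} {G : SimpleGraph V} {e : Sym2 V} (he : e ∈ G.edgeSet) :
    e.out.1 ≠ e.out.2 := by
  intro hh
  apply G.not_isDiag_of_mem_edgeSet he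
  have he' : s(e.out.1, e.out.2) = e := e.out_eq
  rw [← he', Sym2.mk_isDiag_iff]
  exact hh

/-- Perturbation to general position: if every pair of vertex-disjoint edges outside `S` is
strictly separated for the (arbitrary, maybe degenerate) positions `Q`, then there is a
straight-line drawing without triple points and with at most `S.card` crossings. -/
theorem perturb {V : Type*} [Finite V] (G : SimpleGraph V) (Q : V → ℂ)
    (S : Finset (Sym2 (Sym2 V)))
    (H : ∀ a b c d, G.Adj a b → G.Adj c d → a ≠ c → a ≠ d → b ≠ c → b ≠ d →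
      s(s(a, b), s(c, d)) ∉ S → Sepr (Q a) (Q b) (Q c) (Q d)) :
    ∃ D : Drawing G, NoTriple D ∧ D.crossings.Finite ∧ D.crossings.ncard ≤ S.card := by
  classical
  cases nonempty_fintype V
  -- a small box
  let q : V × Bool → ℝ := fun i => if i.2 then (Q i.1).im else (Q i.1).re
  have hT : Continuous (fun x : V × Bool → ℝ => fun v => pt x v) := by
    have : (fun x : V × Bool → ℝ => fun v => pt x v) =
        fun x v => ((x (v, false) : ℝ) : ℂ) + ((x (v, true) : ℝ) : ℂ) * Complex.I := by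
      funext x v
      exact Complex.mk_eq_add_mul_I _ _
    rw [this]
    fun_prop
  have hq : (fun v => pt q v) = Q := by
    funext v
    apply Complex.ext <;> simp [pt, q]
  have hev : ∀ᶠ x : V × Bool → ℝ in 𝓝 q, ∀ p : V × V × V × V,
      Sepr (Q p.1) (Q p.2.1) (Q p.2.2.1) (Q p.2.2.2) →
      Sepr (pt x p.1) (pt x p.2.1) (pt x p.2.2.1) (pt x p.2.2.2) := by
    have h1 : Tendsto (fun x : V × Bool → ℝ => fun v => pt x v) (𝓝 q) (𝓝 (fun v => pt q v)) :=
      hT.continuousAt (x := q)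
    rw [hq] at h1
    exact h1.eventually (sepr_open Q)
  obtain ⟨ε, hε, hball⟩ := Metric.eventually_nhds_iff.mp hev
  obtain ⟨x, hx, hgen, hconc⟩ := exists_general q ε hε
  have hgood := hball (y := x) (by
    rw [dist_pi_lt_iff hε]
    intro i
    rw [Real.dist_eq]
    exact hx i)
  refine ⟨straight G (pt x) hgen, ?_, ncard_le hgen S ?_⟩
  · rintro e he f hf g hg hef heg hfg z ⟨h1, h2, h3⟩
    have d1 := disj_of_common hgen he hf hef h1 h2
    have d2 := disj_of_common hgen he hg heg h1 h3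
    have d3 := disj_of_common hgen hf hg hfg h2 h3
    have m1 : e.out.1 ∈ e := Sym2.out_fst_mem e
    have m2 : e.out.2 ∈ e := Sym2.out_snd_mem e
    have m3 : f.out.1 ∈ f := Sym2.out_fst_mem f
    have m4 : f.out.2 ∈ f := Sym2.out_snd_mem f
    have m5 : g.out.1 ∈ g := Sym2.out_fst_mem g
    have m6 : g.out.2 ∈ g := Sym2.out_snd_mem g
    obtain ⟨r, -, hr⟩ := h1
    obtain ⟨s, -, hs⟩ := h2
    obtain ⟨t, -, ht⟩ := h3
    refine hconc e.out.1 e.out.2 f.out.1 f.out.2 g.out.1 g.out.2 ?_ (conc_eq_zero hr hs ht)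
    exact ⟨out_ne he, fun h => d1 _ m1 (h ▸ m3), fun h => d1 _ m1 (h ▸ m4),
      fun h => d2 _ m1 (h ▸ m5), fun h => d2 _ m1 (h ▸ m6), fun h => d1 _ m2 (h ▸ m3),
      fun h => d1 _ m2 (h ▸ m4), fun h => d2 _ m2 (h ▸ m5), fun h => d2 _ m2 (h ▸ m6),
      out_ne hf, fun h => d3 _ m3 (h ▸ m5), fun h => d3 _ m3 (h ▸ m6),
      fun h => d3 _ m4 (h ▸ m5), fun h => d3 _ m4 (h ▸ m6), out_ne hg⟩
  · intro a b c d hab hcd _ hac had hbc hbd _ o1 o2
    by_contra hS
    exact sepr_disjoint (hgood (a, b, c, d) (H a b c d hab hcd hac had hbc hbd hS)) o1 o2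

end Pool.Agent.TH639.J31
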